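import Pool.Agent.Helper47.DS.Defs

/-!
# From a list of vertices to a lane (row GEO-D of Theorem D* for MP_5165fa)
-/

open Set BIC
open scoped Matroid

namespace BICS

universe u

/-- The zones of a list: starts and ends. -/
lemma LaneL.zones {q : ℕ} {l : List (ℕ × ℕ)} {ts : List (Set (ℕ × ℕ))} (h : LaneL q l ts) :
    ∃ a b : ℕ → ℕ, ∀ t < ts.length, a t + 2 * q + 1 < b t ∧ b t ≤ l.length ∧
      (∀ j < q, ∃ p r, l[a t + (q - 1 - j)]? = some p ∧ l[a t + (q + j)]? = some r ∧ adj p r) ∧
      (∀ v ∈ ts.getD t ∅, ∃ i, a t + 2 * q ≤ i ∧ i < b t ∧ l[i]? = some v) ∧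
      (t + 1 < ts.length → b t ≤ a (t + 1)) := by
  induction h with
  | nil l => exact ⟨fun _ => 0, fun _ => 0, by simp⟩
  | @snoc l ts z p t hl hz ih =>
    obtain ⟨a, b, hab⟩ := ih
    obtain ⟨hz1, hz2, hz3⟩ := hz
    refine ⟨Function.update a ts.length l.length, Function.update b ts.length (l.length + z.length),
      ?_⟩
    intro i hi
    rw [List.length_append, List.length_singleton] at hi
    have hlen : (l ++ z ++ p).length = l.length + z.length + p.length := by
      rw [List.length_append, List.length_append]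
    have hsub : ∀ i, i < l.length → (l ++ z ++ p)[i]? = l[i]? := by
      intro i hi
      rw [List.append_assoc, List.getElem?_append_left hi]
    have hsub2 : ∀ i, i < z.length → (l ++ z ++ p)[l.length + i]? = z[i]? := by
      intro i hi
      rw [List.append_assoc, List.getElem?_append_right (by omega), Nat.add_sub_cancel_left,
        List.getElem?_append_left hi]
    rcases Nat.lt_or_ge i ts.length with h1 | h1
    · obtain ⟨c1, c2, c3, c4, c5⟩ := hab i h1
      have hne : i ≠ ts.length := by omega
      rw [Function.update_of_ne hne, Function.update_of_ne hne]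
      refine ⟨c1, by omega, ?_, ?_, ?_⟩
      · intro j hj
        obtain ⟨p', r', e1, e2, e3⟩ := c3 j hj
        refine ⟨p', r', ?_, ?_, e3⟩
        · rw [hsub _ (by omega)]; exact e1
        · rw [hsub _ (by omega)]; exact e2
      · intro v hv
        have e0 : (ts ++ [t]).getD i ∅ = ts.getD i ∅ := by
          rw [List.getD_eq_getElem?_getD, List.getD_eq_getElem?_getD,
            List.getElem?_append_left h1]
        rw [e0] at hv
        obtain ⟨i', e1, e2, e3⟩ := c4 v hv
        exact ⟨i', e1, e2, by rw [hsub _ (by omega)]; exact e3⟩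
      · intro _
        by_cases h2 : i + 1 = ts.length
        · rw [h2, Function.update_self]; exact c2
        · rw [Function.update_of_ne h2]
          exact c5 (by omega)
    · have h2 : i = ts.length := by omega
      subst h2
      rw [Function.update_self, Function.update_self]
      refine ⟨by omega, by omega, ?_, ?_, ?_⟩
      · intro j hj
        obtain ⟨p', r', e1, e2, e3⟩ := hz1 j hj
        refine ⟨p', r', ?_, ?_, e3⟩
        · rw [hsub2 _ (by omega)]; exact e1
        · rw [hsub2 _ (by omega)]; exact e2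
      · intro v hv
        have e0 : (ts ++ [t]).getD ts.length ∅ = t := by
          rw [List.getD_eq_getElem?_getD, List.getElem?_append_right (le_refl _)]
          simp
        rw [e0] at hv
        obtain ⟨i', hi', e1⟩ := List.mem_iff_getElem.1 (hz3 v hv)
        rw [List.getElem_drop] at e1
        rw [List.length_drop] at hi'
        refine ⟨l.length + (2 * q + i'), by omega, by omega, ?_⟩
        rw [hsub2 _ (by omega), List.getElem?_eq_getElem (by omega), e1]
      · intro h3
        rw [List.length_append, List.length_singleton] at h3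
        omega

/-- **Row GEO-D.** From a list to a lane. -/
theorem listStmt : ListStmt.{u} := by
  intro α S ends x y m q N' l ts hG hl hrect hq hL hlen
  classical
  obtain ⟨hch, hnd⟩ := hl
  obtain ⟨a, b, hab⟩ := hL.zones
  set W : Set (ℕ × ℕ) := {v | v ∈ l} with hW
  -- positions
  have hpos : ∀ i v, l[i]? = some v → l.idxOf v = i ∧ v ∈ W := by
    intro i v hi
    obtain ⟨h1, h2⟩ := List.getElem?_eq_some_iff.1 hi
    refine ⟨?_, ?_⟩
    · rw [← h2]; exact hnd.idxOf_getElem i h1
    · rw [← h2]; exact List.getElem_mem h1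
  have hinj : InjOn (fun v => l.idxOf v) W := by
    intro v hv v' hv' h
    exact (List.idxOf_inj hv).1 h
  -- the edge between two adjacent vertices of the list
  have hed : ∀ p r, adj p r → p ∈ W → r ∈ W → ∃ e, e ∈ ins S ends W ∧ ends e = s(p, r) := by
    intro p r hpr hp hr
    obtain ⟨e, he, he'⟩ := hG.surj p r hpr (hrect p hp) (hrect r hr)
    refine ⟨e, ⟨he, ?_⟩, he'⟩
    intro v hv
    rw [he', Sym2.mem_iff] at hv
    rcases hv with rfl | rfl
    · exact hp
    · exact hr
  have hedge : ∀ z, z + 1 < l.length → ∃ e, e ∈ ins S ends W ∧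
      (ends e).map (fun v => l.idxOf v) = s(z, z + 1) := by
    intro z hz
    have h1 : l[z]? = some (l[z]'(by omega)) := List.getElem?_eq_getElem (by omega)
    have h2 : l[z + 1]? = some (l[z + 1]'hz) := List.getElem?_eq_getElem hz
    obtain ⟨p1, w1⟩ := hpos _ _ h1
    obtain ⟨p2, w2⟩ := hpos _ _ h2
    obtain ⟨e, he, he'⟩ := hed _ _ (List.isChain_iff_getElem.1 hch z hz) w1 w2
    refine ⟨e, he, ?_⟩
    rw [he', Sym2.map_mk]
    simp only [p1, p2]
  -- rungs
  have hrung : ∀ t < ts.length, ∀ j < q, ∃ e, e ∈ ins S ends W ∧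
      (ends e).map (fun v => l.idxOf v) = s(a t + q - 1 - j, a t + q + j) := by
    intro t ht j hj
    obtain ⟨p, r, e1, e2, e3⟩ := (hab t ht).2.2.1 j hj
    obtain ⟨p1, w1⟩ := hpos _ _ e1
    obtain ⟨p2, w2⟩ := hpos _ _ e2
    obtain ⟨e, he, he'⟩ := hed _ _ e3 w1 w2
    refine ⟨e, he, ?_⟩
    rw [he', Sym2.map_mk]
    simp only [p1, p2]
    rw [show a t + (q - 1 - j) = a t + q - 1 - j by omega,
      show a t + (q + j) = a t + q + j by omega]
  have hlpos : 0 < l.length := by
    have := hab 0 (by omega)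
    omega
  have hne : Nonempty α := by
    have h0 := hab 0 (by omega)
    obtain ⟨e, _, _⟩ := hedge 0 (by omega)
    exact ⟨e⟩
  choose! el hel1 hel2 using hedge
  choose! R hR1 hR2 using hrung
  refine ⟨fun v => l.idxOf v, el, l.length, a, R, hinj, ⟨hel1, hel2, ?_⟩, ?_, ?_, ?_⟩
  · -- no loops
    intro e he i j hij
    obtain ⟨p, r, h1, h2, _, _⟩ := hG.mem e he.1
    have hp : p ∈ W := he.2 p (by rw [h1]; simp)
    have hr : r ∈ W := he.2 r (by rw [h1]; simp)
    simp only [h1, Sym2.map_mk, Sym2.eq_iff] at hij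
    rintro rfl
    have h3 : l.idxOf p = l.idxOf r := by
      rcases hij with ⟨h4, h5⟩ | ⟨h4, h5⟩
      · rw [h4, h5]
      · rw [h4, h5]
    have h4 : p = r := hinj hp hr h3
    rw [h4] at h2
    unfold adj at h2
    omega
  · intro t ht
    have h1 := hab t (by omega)
    refine ⟨by omega, ⟨fun j hj => hR1 t (by omega) j hj, fun j hj => hR2 t (by omega) j hj⟩⟩
  · intro t ht
    have h1 := hab t (by omega)
    have h2 := h1.2.2.2.2 (by omega)
    omega
  · intro t ht e he
    obtain ⟨_, h2, _, h4, h5⟩ := hab t (by omega)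
    have h6 := h5 (by omega)
    have hv : ∀ v ∈ ends e, v ∈ W ∧ a t + 2 * q ≤ l.idxOf v ∧ l.idxOf v < a (t + 1) := by
      intro v hv
      obtain ⟨i, e1, e2, e3⟩ := h4 v (he.2 v hv)
      obtain ⟨p1, w1⟩ := hpos _ _ e3
      exact ⟨w1, by omega, by omega⟩
    refine ⟨⟨he.1, fun v hv' => (hv v hv').1⟩, ?_⟩
    intro i hi
    obtain ⟨v, hv', rfl⟩ := Sym2.mem_map.1 hi
    exact ⟨(hv v hv').2.1, (hv v hv').2.2⟩

end BICS
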