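import Pool.Agent.Helper47.DS.Defs

/-!
# Tools for the geometry rows of Theorem D*
-/

open Set BIC
open scoped Matroid

namespace BICS.T51

universe u

lemma isPth_append {l l' : List (ℕ × ℕ)} (h : IsPth l) (h' : IsPth l') (hd : l.Disjoint l')
    (ha : ∀ a b, l.getLast? = some a → l'.head? = some b → adj a b) : IsPth (l ++ l') := by
  refine ⟨?_, List.Nodup.append h.2 h'.2 hd⟩
  rw [List.isChain_append]
  exact ⟨h.1, h'.1, fun a h1 b h2 => ha a b h1 h2⟩

lemma isPth_map {l : List (ℕ × ℕ)} {f : ℕ × ℕ → ℕ × ℕ} (h : IsPth l)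
    (ha : ∀ v ∈ l, ∀ w ∈ l, adj v w → adj (f v) (f w))
    (hi : ∀ v ∈ l, ∀ w ∈ l, f v = f w → v = w) : IsPth (l.map f) := by
  refine ⟨?_, ?_⟩
  · have h1 := h.1
    rw [List.isChain_iff_getElem] at h1 ⊢
    intro i hi'
    rw [List.length_map] at hi'
    rw [List.getElem_map, List.getElem_map]
    exact ha _ (List.getElem_mem _) _ (List.getElem_mem _) (h1 i hi')
  · rw [List.nodup_map_iff_inj_on h.2]
    exact hi

lemma zone_map {q : ℕ} {z : List (ℕ × ℕ)} {t t' : Set (ℕ × ℕ)} {f : ℕ × ℕ → ℕ × ℕ}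
    (h : Zone q z t) (ha : ∀ v ∈ z, ∀ w ∈ z, adj v w → adj (f v) (f w)) (ht : t' ⊆ f '' t) :
    Zone q (z.map f) t' := by
  obtain ⟨h1, h2, h3⟩ := h
  refine ⟨?_, ?_, ?_⟩
  · intro j hj
    obtain ⟨p, r, hp, hr, hpr⟩ := h1 j hj
    refine ⟨f p, f r, ?_, ?_, ha p (List.mem_of_getElem? hp) r (List.mem_of_getElem? hr) hpr⟩
    · rw [List.getElem?_map, hp]; rfl
    · rw [List.getElem?_map, hr]; rfl
  · rw [List.length_map]; exact h2
  · intro v hv
    obtain ⟨u, hu, rfl⟩ := ht hv
    rw [← List.map_drop]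
    exact List.mem_map_of_mem (h3 u hu)

lemma zone_nonempty {q : ℕ} {z : List (ℕ × ℕ)} {t : Set (ℕ × ℕ)} (h : Zone q z t) : z ≠ [] := by
  rintro rfl
  have := h.2.1
  simp at this

lemma laneL_append {q : ℕ} {l : List (ℕ × ℕ)} {ts : List (Set (ℕ × ℕ))} (h : LaneL q l ts)
    (p : List (ℕ × ℕ)) : LaneL q (l ++ p) ts := by
  cases h with
  | nil l => exact LaneL.nil _
  | @snoc l ts z p' t hl hz =>
    rw [List.append_assoc (l ++ z) p' p]
    exact LaneL.snoc hl hz

lemma laneL_zone {q : ℕ} {l : List (ℕ × ℕ)} {ts : List (Set (ℕ × ℕ))} (h : LaneL q l ts)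
    {p z p' : List (ℕ × ℕ)} {t : Set (ℕ × ℕ)} (hz : Zone q z t) :
    LaneL q (l ++ (p ++ z ++ p')) (ts ++ [t]) := by
  have h1 := LaneL.snoc (p := p') (laneL_append h p) hz
  have h2 : l ++ p ++ z ++ p' = l ++ (p ++ z ++ p') := by simp
  rw [h2] at h1
  exact h1

/-- a list from pieces: `P 0 ++ P 1 ++ ... ++ P (n - 1)` -/
def cat (P : ℕ → List (ℕ × ℕ)) : ℕ → List (ℕ × ℕ)
  | 0 => []
  | n + 1 => cat P n ++ P n

lemma mem_cat {P : ℕ → List (ℕ × ℕ)} {n : ℕ} {v : ℕ × ℕ} :
    v ∈ cat P n ↔ ∃ i < n, v ∈ P i := by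
  induction n with
  | zero => simp [cat]
  | succ n ih =>
    rw [cat, List.mem_append, ih]
    constructor
    · rintro (⟨i, hi, h⟩ | h)
      · exact ⟨i, by omega, h⟩
      · exact ⟨n, by omega, h⟩
    · rintro ⟨i, hi, h⟩
      rcases Nat.lt_succ_iff_lt_or_eq.1 hi with h' | h'
      · exact Or.inl ⟨i, h', h⟩
      · subst h'; exact Or.inr h

lemma cat_last {P : ℕ → List (ℕ × ℕ)} {n : ℕ} (h : P n ≠ []) :
    (cat P (n + 1)).getLast? = (P n).getLast? := by
  rw [cat, List.getLast?_append_of_ne_nil _ h]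

/-- pieces of a path make a path -/
lemma cat_isPth {P : ℕ → List (ℕ × ℕ)} {n : ℕ} (h0 : ∀ i < n, P i ≠ [])
    (h1 : ∀ i < n, IsPth (P i))
    (h2 : ∀ i, i + 1 < n → ∀ a b, (P i).getLast? = some a → (P (i + 1)).head? = some b → adj a b)
    (h3 : ∀ i j, i < j → j < n → (P i).Disjoint (P j)) : IsPth (cat P n) := by
  induction n with
  | zero => exact ⟨List.isChain_nil, List.nodup_nil⟩
  | succ n ih =>
    rw [cat]
    apply isPth_append
      (ih (fun i hi => h0 i (by omega)) (fun i hi => h1 i (by omega))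
        (fun i hi => h2 i (by omega)) (fun i j hij hj => h3 i j hij (by omega)))
      (h1 n (by omega))
    · intro v hv hv'
      obtain ⟨i, hi, hvi⟩ := mem_cat.1 hv
      exact h3 i n hi (by omega) hvi hv'
    · intro a b ha hb
      rcases Nat.eq_zero_or_pos n with rfl | hn
      · simp [cat] at ha
      · obtain ⟨m, rfl⟩ := Nat.exists_eq_succ_of_ne_zero hn.ne'
        rw [Nat.succ_eq_add_one, cat_last (h0 m (by omega))] at ha
        exact h2 m (by omega) a b ha hb

/-- pieces with zones make a list with zones -/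
lemma cat_laneL {P : ℕ → List (ℕ × ℕ)} {q : ℕ} {β : Type*} (τ : β → Set (ℕ × ℕ))
    (κ : ℕ → Option β) {n : ℕ}
    (h : ∀ i < n, ∀ c, κ i = some c → ∃ p z p', P i = p ++ z ++ p' ∧ Zone q z (τ c)) :
    LaneL q (cat P n) (((List.range n).filterMap κ).map τ) := by
  induction n with
  | zero => exact LaneL.nil _
  | succ n ih =>
    have ih' := ih (fun i hi => h i (by omega))
    rw [List.range_succ, List.filterMap_append, List.map_append, cat]
    rcases hk : κ n with _ | c
    · have : List.filterMap κ [n] = [] := by simp [hk]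
      rw [this, List.map_nil, List.append_nil]
      exact laneL_append ih' _
    · have : List.filterMap κ [n] = [c] := by simp [hk]
      rw [this, List.map_cons, List.map_nil]
      obtain ⟨p, z, p', e, hz⟩ := h n (by omega) c hk
      rw [e]
      exact laneL_zone ih' hz

lemma lane_congr {α : Type*} {S : Set α} {ends : α → Sym2 (ℕ × ℕ)} {W : Set (ℕ × ℕ)} {q N : ℕ}
    {τ τ' : ℕ → Set (ℕ × ℕ)} (h : Lane S ends W q N τ) (hτ : ∀ t < N, τ t = τ' t) :
    Lane S ends W q N τ' := by
  obtain ⟨pos, el, L, a, R, h1, h2, h3, h4, h5⟩ := h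
  refine ⟨pos, el, L, a, R, h1, h2, h3, h4, fun t ht => ?_⟩
  rw [← hτ t ht]
  exact h5 t ht

/-- From pieces to a lane, with the enumeration of its cells. -/
lemma lane_of_pieces (hList : ListStmt.{u}) {α : Type u} {S : Set α} {ends : α → Sym2 (ℕ × ℕ)}
    {x y m q : ℕ} (hS : Grd S ends x y m m) (hq : 1 ≤ q) {P : ℕ → List (ℕ × ℕ)} {n : ℕ}
    (h0 : ∀ i < n, P i ≠ []) (h1 : ∀ i < n, IsPth (P i))
    (h2 : ∀ i, i + 1 < n → ∀ a b, (P i).getLast? = some a → (P (i + 1)).head? = some b → adj a b)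
    (h3 : ∀ i j, i < j → j < n → (P i).Disjoint (P j))
    (h4 : ∀ i < n, ∀ v ∈ P i, v ∈ rect x y m m)
    (τ : ℕ × ℕ → Set (ℕ × ℕ)) (κ : ℕ → Option (ℕ × ℕ))
    (h5 : ∀ i < n, ∀ c, κ i = some c → ∃ p z p', P i = p ++ z ++ p' ∧ Zone q z (τ c))
    (h6 : ∀ i j c, i < n → j < n → κ i = some c → κ j = some c → i = j) :
    ∃ (N : ℕ) (c : ℕ → ℕ × ℕ), BijOn c (Iio N) {c | ∃ i < n, κ i = some c} ∧
      ∀ N', N = N' + 1 → Lane S ends {v | ∃ i < n, v ∈ P i} q N' (fun t => τ (c t)) := by
  set cs := (List.range n).filterMap κ with hcs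
  have hmem : ∀ c, c ∈ cs ↔ ∃ i < n, κ i = some c := by
    intro c
    rw [hcs, List.mem_filterMap]
    constructor
    · rintro ⟨i, hi, h⟩
      exact ⟨i, List.mem_range.1 hi, h⟩
    · rintro ⟨i, hi, h⟩
      exact ⟨i, List.mem_range.2 hi, h⟩
  have hnd : cs.Nodup := by
    have : ∀ m ≤ n, ((List.range m).filterMap κ).Nodup := by
      intro m
      induction m with
      | zero => intro _; simp
      | succ m ih =>
        intro hm
        rw [List.range_succ, List.filterMap_append]
        rcases hk : κ m with _ | c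
        · have : List.filterMap κ [m] = [] := by simp [hk]
          rw [this, List.append_nil]
          exact ih (by omega)
        · have : List.filterMap κ [m] = [c] := by simp [hk]
          rw [this]
          refine List.Nodup.append (ih (by omega)) (List.nodup_singleton _) ?_
          intro c' hc' hc''
          rw [List.mem_singleton] at hc''
          subst hc''
          obtain ⟨i, hi, hic⟩ := List.mem_filterMap.1 hc'
          have hi' := List.mem_range.1 hi
          have := h6 i m c' (by omega) (by omega) hic hk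
          omega
    exact this n le_rfl
  refine ⟨cs.length, fun t => cs.getD t (0, 0), ⟨?_, ?_, ?_⟩, ?_⟩
  · intro t ht
    have ht' : t < cs.length := ht
    rw [mem_ofPred_eq, ← hmem]
    simp only [List.getD_eq_getElem _ _ ht']
    exact List.getElem_mem ht'
  · intro t ht t' ht' he
    have ht1 : t < cs.length := ht
    have ht2 : t' < cs.length := ht'
    simp only [List.getD_eq_getElem _ _ ht1, List.getD_eq_getElem _ _ ht2] at he
    exact (List.Nodup.getElem_inj_iff hnd).1 he
  · intro c hc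
    rw [mem_ofPred_eq, ← hmem] at hc
    obtain ⟨t, ht, h⟩ := List.mem_iff_getElem.1 hc
    refine ⟨t, ht, ?_⟩
    simp only [List.getD_eq_getElem _ _ ht]
    exact h
  · intro N' hN'
    have hl := hList hS (cat_isPth h0 h1 h2 h3) (l := cat P n) (N' := N')
      (fun v hv => by
        obtain ⟨i, hi, hvi⟩ := mem_cat.1 hv
        exact h4 i hi v hvi) hq (cat_laneL τ κ h5) (by rw [List.length_map]; exact hN')
    have hW : {v | v ∈ cat P n} = {v | ∃ i < n, v ∈ P i} := by
      ext v
      exact mem_cat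
    rw [hW] at hl
    refine lane_congr hl ?_
    intro t ht
    have ht' : t < cs.length := by omega
    have ht'' : t < (cs.map τ).length := by rw [List.length_map]; exact ht'
    rw [← hcs]
    simp only [List.getD_eq_getElem _ _ ht']
    rw [List.getD_eq_getElem _ _ ht'', List.getElem_map]

end BICS.T51
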